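import Pool.Agent.Lib.SubspaceH13.Minima

/-!
# Davenport's lemma and the reduction to the penultimate minimum
-/

namespace Pool.Agent.Lib.SubspaceH13

open Finset

theorem finrank_flag_le {n : ℕ} (x : Fin n → Fin n → ℤ) (i : ℕ) :
    Module.finrank ℚ (flag x i) ≤ i := by
  classical
  have h1 : flag x i ≤ Submodule.span ℚ
      (Finset.image (fun t => qv (x t)) (univ.filter fun t : Fin n => (t : ℕ) < i) :
        Set (Fin n → ℚ)) := by
    apply Submodule.span_mono
    rintro _ ⟨t, ht, rfl⟩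
    rw [Finset.mem_coe, Finset.mem_image]
    exact ⟨t, Finset.mem_filter.2 ⟨mem_univ _, ht⟩, rfl⟩
  have h2 : (Finset.image (fun t => qv (x t))
      (univ.filter fun t : Fin n => (t : ℕ) < i)).card ≤ i := by
    refine Finset.card_image_le.trans ?_
    have h3 : (univ.filter fun t : Fin n => (t : ℕ) < i).card ≤ (Finset.range i).card :=
      Finset.card_le_card_of_injOn (fun t => (t : ℕ))
        (fun t ht => Finset.mem_coe.2 (Finset.mem_range.2 (Finset.mem_filter.1 ht).2))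
        (fun a _ b _ h => Fin.ext h)
    simpa using h3
  calc Module.finrank ℚ (flag x i) ≤ _ := Submodule.finrank_mono h1
    _ ≤ _ := finrank_span_finset_le_card _
    _ ≤ i := h2

/-- more independent vectors than the dimension of the flag: one of them is outside -/
theorem exists_notMem_flag {n d : ℕ} (x : Fin n → Fin n → ℤ) (i : ℕ) (hid : i < d)
    (z : Fin d → Fin n → ℤ) (hz : LinearIndependent ℚ (fun t => qv (z t))) :
    ∃ t, qv (z t) ∉ flag x i := by
  by_contra hcon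
  push Not at hcon
  have h1 : Submodule.span ℚ (Set.range fun t => qv (z t)) ≤ flag x i := by
    rw [Submodule.span_le]
    rintro _ ⟨t, rfl⟩
    exact hcon t
  have h2 := Submodule.finrank_mono h1
  rw [finrank_span_eq_card hz, Fintype.card_fin] at h2
  have := finrank_flag_le x i
  omega

/-- Minimality: independent vectors of `Λ` with gauge at most `c` bound the minima. -/
theorem IsMinima.le_of_independent {n d : ℕ} {Λ : AddSubgroup (Fin n → ℤ)} {B : Fin n → ℝ}
    (hB : ∀ j, 0 < B j) {x : Fin n → Fin n → ℤ} {l : Fin n → ℝ} (H : IsMinima Λ B x l)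
    (i : Fin n) (hid : (i : ℕ) < d) (z : Fin d → Fin n → ℤ) (hzΛ : ∀ t, z t ∈ Λ)
    (hz : LinearIndependent ℚ (fun t => qv (z t))) (c : ℝ)
    (hc : ∀ t j, |(z t j : ℝ)| ≤ c * B j) : l i ≤ c := by
  by_contra hcon
  push Not at hcon
  obtain ⟨t, ht⟩ := exists_notMem_flag x i hid z hz
  apply ht
  apply H.greedy i _ (hzΛ t)
  intro j
  exact (hc t j).trans_lt (mul_lt_mul_of_pos_right hcon (hB j))

/-- Davenport's lemma -/
theorem IsMinima.davenport {n : ℕ} {Λ : AddSubgroup (Fin n → ℤ)} (hΛ : Λ.index ≠ 0)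
    {B : Fin n → ℝ} (hB : ∀ j, 0 < B j) {x : Fin n → Fin n → ℤ} {l : Fin n → ℝ}
    (H : IsMinima Λ B x l) (ρ : Fin n → ℝ) (hρ : ∀ i, 0 < ρ i) (hanti : Antitone ρ)
    (hmono : Monotone fun i => ρ i * l i) :
    ∃ π : Equiv.Perm (Fin n),
      (∀ i : Fin n, ∀ y ∈ Λ, qv y ∉ flag x i → ∀ c : ℝ,
        (∀ j, |(y j : ℝ)| ≤ c * (B j / ρ (π.symm j))) → ρ i * l i ≤ (n : ℝ) ^ n * c) ∧
      ∀ x' l', IsMinima Λ (fun j => B j / ρ (π.symm j)) x' l' → ∀ i,
        ρ i * l i ≤ (n : ℝ) ^ n * l' i ∧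
        l' i ≤ (((n : ℝ) ^ n) ^ n * n.factorial * ((n : ℝ) ^ n) ^ (n - 1)) * (ρ i * l i) := by
  classical
  obtain ⟨π, hπ⟩ := H.exists_perm hB
  have ha : ∀ i : Fin n, ∀ y ∈ Λ, qv y ∉ flag x i → ∀ c : ℝ,
      (∀ j, |(y j : ℝ)| ≤ c * (B j / ρ (π.symm j))) → ρ i * l i ≤ (n : ℝ) ^ n * c := by
    intro i y hy hyi c hc
    have hn : (0 : ℝ) < (n : ℝ) ^ n := by
      have : 0 < n := by have := i.isLt; omega
      positivity
    obtain ⟨k, t, hik, htk, hbig⟩ := hπ i y hy hyi
    have h1 := hc (π t)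
    rw [Equiv.symm_apply_apply] at h1
    have h2 : l k * B (π t) ≤ (n : ℝ) ^ n * (c * (B (π t) / ρ t)) :=
      hbig.trans (mul_le_mul_of_nonneg_left h1 hn.le)
    have h3 : (l k * ρ t) * B (π t) ≤ ((n : ℝ) ^ n * c) * B (π t) := by
      have h4 := mul_le_mul_of_nonneg_right h2 (hρ t).le
      have h5 : (n : ℝ) ^ n * (c * (B (π t) / ρ t)) * ρ t = ((n : ℝ) ^ n * c) * B (π t) := by
        have := (hρ t).ne'
        field_simp
      rw [h5] at h4
      linarith
    have h4 := le_of_mul_le_mul_right h3 (hB (π t))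
    calc ρ i * l i ≤ ρ k * l k := hmono hik
      _ ≤ ρ t * l k := mul_le_mul_of_nonneg_right (hanti htk) (H.pos k).le
      _ = l k * ρ t := mul_comm _ _
      _ ≤ _ := h4
  refine ⟨π, ha, ?_⟩
  intro x' l' H'
  have hB' : ∀ j, 0 < B j / ρ (π.symm j) := fun j => div_pos (hB j) (hρ _)
  have hb : ∀ i, ρ i * l i ≤ (n : ℝ) ^ n * l' i := by
    intro i
    have hn : (0 : ℝ) < (n : ℝ) ^ n := by
      have : 0 < n := by have := i.isLt; omega
      positivity
    have hli : LinearIndependent ℚ (fun t : Fin (i + 1) =>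
        qv (x' (Fin.castLE (Nat.succ_le_of_lt i.isLt) t))) :=
      H'.indep.comp _ (Fin.castLE_injective _)
    obtain ⟨t, ht⟩ := exists_notMem_flag x i (Nat.lt_succ_self _) _ hli
    have h1 := ha i _ (H'.mem _) ht _ (H'.le _)
    refine h1.trans (mul_le_mul_of_nonneg_left (H'.mono ?_) hn.le)
    exact Nat.lt_succ_iff.1 t.isLt
  intro i
  refine ⟨hb i, ?_⟩
  have hn : (0 : ℝ) < (n : ℝ) ^ n := by
    have : 0 < n := by have := i.isLt; omega
    positivity
  have hup := H'.upper hΛ hB'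
  have hlow := index_le_of_linearIndependent Λ x H.mem H.indep l B H.le
  rw [Finset.prod_div_distrib, Equiv.prod_comp π.symm ρ] at hup
  have hBpos : 0 < ∏ j, B j := Finset.prod_pos fun j _ => hB j
  have hρpos : 0 < ∏ j, ρ j := Finset.prod_pos fun j _ => hρ j
  have h1 : (∏ t, l' t) ≤ ((n : ℝ) ^ n) ^ n * n.factorial * ∏ t, (ρ t * l t) := by
    have h2 : (∏ t, l' t) * (∏ j, B j) ≤
        (((n : ℝ) ^ n) ^ n * n.factorial * ∏ t, (ρ t * l t)) * (∏ j, B j) := by
      calc (∏ t, l' t) * (∏ j, B j)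
          = (∏ t, l' t) * ((∏ j, B j) / ∏ j, ρ j) * ∏ j, ρ j := by
            field_simp
        _ ≤ ((n : ℝ) ^ n) ^ n * Λ.index * ∏ j, ρ j :=
            mul_le_mul_of_nonneg_right hup hρpos.le
        _ ≤ ((n : ℝ) ^ n) ^ n * ((n.factorial : ℝ) * ((∏ i, l i) * ∏ j, B j)) * ∏ j, ρ j := by
            gcongr
        _ = _ := by
            rw [Finset.prod_mul_distrib]
            ring
    exact le_of_mul_le_mul_right h2 hBpos
  rw [← Finset.mul_prod_erase _ _ (mem_univ i), ← Finset.mul_prod_erase _ _ (mem_univ i)] at h1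
  have h2 : ∏ t ∈ univ.erase i, (ρ t * l t) ≤
      ((n : ℝ) ^ n) ^ (n - 1) * ∏ t ∈ univ.erase i, l' t := by
    calc ∏ t ∈ univ.erase i, (ρ t * l t) ≤ ∏ t ∈ univ.erase i, ((n : ℝ) ^ n * l' t) :=
          Finset.prod_le_prod (fun t _ => (mul_pos (hρ t) (H.pos t)).le) fun t _ => hb t
      _ = _ := by
          rw [Finset.prod_mul_distrib, Finset.prod_const, Finset.card_erase_of_mem (mem_univ _),
            Finset.card_univ, Fintype.card_fin]
  have h3 : 0 < ∏ t ∈ univ.erase i, l' t := Finset.prod_pos fun t _ => H'.pos t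
  have h4 : l' i * ∏ t ∈ univ.erase i, l' t ≤
      ((((n : ℝ) ^ n) ^ n * n.factorial * ((n : ℝ) ^ n) ^ (n - 1)) * (ρ i * l i)) *
        ∏ t ∈ univ.erase i, l' t := by
    refine h1.trans ?_
    have h5 : 0 ≤ ((n : ℝ) ^ n) ^ n * n.factorial * (ρ i * l i) := by
      have := mul_pos (hρ i) (H.pos i)
      positivity
    calc ((n : ℝ) ^ n) ^ n * ↑n.factorial * (ρ i * l i * ∏ t ∈ univ.erase i, ρ t * l t)
        = (((n : ℝ) ^ n) ^ n * n.factorial * (ρ i * l i)) * ∏ t ∈ univ.erase i, ρ t * l t := by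
          ring
      _ ≤ (((n : ℝ) ^ n) ^ n * n.factorial * (ρ i * l i)) *
          (((n : ℝ) ^ n) ^ (n - 1) * ∏ t ∈ univ.erase i, l' t) :=
          mul_le_mul_of_nonneg_left h2 h5
      _ = _ := by ring
  exact le_of_mul_le_mul_right h4 h3

/-- the first minimum and the largest side of the box -/
theorem IsMinima.one_le {n : ℕ} {Λ : AddSubgroup (Fin n → ℤ)} {B : Fin n → ℝ}
    {x : Fin n → Fin n → ℤ} {l : Fin n → ℝ} (H : IsMinima Λ B x l) (i : Fin n) (b : ℝ)
    (hb : ∀ j, B j ≤ b) : 1 ≤ l i * b := by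
  have hne : x i ≠ 0 := by
    intro h0
    have := H.indep.ne_zero i
    rw [h0, qv_zero] at this
    exact this rfl
  obtain ⟨j, hj⟩ : ∃ j, x i j ≠ 0 := by
    by_contra hcon
    push Not at hcon
    exact hne (funext hcon)
  have h1 : (1 : ℝ) ≤ |(x i j : ℝ)| := by exact_mod_cast Int.one_le_abs hj
  exact (h1.trans (H.le i j)).trans (mul_le_mul_of_nonneg_left (hb j) (H.pos i).le)

/-- constant of `penultimate` -/
noncomputable def penC (n : ℕ) : ℝ :=
  ((n : ℝ) ^ n) ^ n * n.factorial * ((n : ℝ) ^ n) ^ (n - 1)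

theorem one_le_penC {n : ℕ} (hn : 1 ≤ n) : 1 ≤ penC n := by
  have h1 : (1 : ℝ) ≤ (n : ℝ) ^ n := one_le_pow₀ (by exact_mod_cast hn)
  have h2 : (1 : ℝ) ≤ n.factorial := by exact_mod_cast Nat.one_le_iff_ne_zero.2 (Nat.factorial_ne_zero n)
  have h3 : (1 : ℝ) ≤ ((n : ℝ) ^ n) ^ n := one_le_pow₀ h1
  have h4 : (1 : ℝ) ≤ ((n : ℝ) ^ n) ^ (n - 1) := one_le_pow₀ h1
  exact one_le_mul_of_one_le_of_one_le (one_le_mul_of_one_le_of_one_le h3 h2) h4

/-- Reduction to the penultimate minimum, for successive minima. -/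
theorem IsMinima.penultimate {k : ℕ} (hk : 1 ≤ k) {Λ : AddSubgroup (Fin (k + 1) → ℤ)}
    (hΛ : Λ.index ≠ 0) {B : Fin (k + 1) → ℝ} (hB : ∀ j, 0 < B j)
    {x : Fin (k + 1) → Fin (k + 1) → ℤ} {l : Fin (k + 1) → ℝ} (H : IsMinima Λ B x l)
    (γ : ℝ) (hγ : l ⟨k - 1, by omega⟩ ≤ γ * l (Fin.last k))
    (hsmall : (((k + 1 : ℕ) : ℝ) ^ (k + 1) * penC (k + 1)) * γ < 1) :
    ∃ (r : Fin (k + 1) → ℝ) (z : Fin k → Fin (k + 1) → ℤ) (M : ℝ),
      (∀ j, 0 < r j) ∧ ∏ j, r j = 1 ∧
      (∀ j, l 0 / l (Fin.last k) ≤ r j ∧ r j ≤ l (Fin.last k) / l 0) ∧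
      (∀ i, z i ∈ Λ) ∧ LinearIndependent ℚ (fun i => qv (z i)) ∧ (∀ i, qv (z i) ∈ flag x k) ∧
      0 < M ∧
      M ^ (k + 1) * ∏ j, B j ≤
        (penC (k + 1) ^ (k + 1) * (((k + 1 : ℕ) : ℝ) ^ (k + 1)) ^ (k + 1)) * γ * Λ.index ∧
      ∀ i j, |(z i j : ℝ)| ≤ M * (r j * B j) := by
  classical
  set pen : Fin (k + 1) := ⟨k - 1, by omega⟩ with hpen
  -- the scaling factor
  set lp := l pen with hlp
  set G : ℝ := (∏ i : Fin k, l i.castSucc) * lp with hG
  have hlpos := H.pos
  have hGpos : 0 < G := mul_pos (Finset.prod_pos fun i _ => hlpos _) (hlpos _)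
  set ρ0 : ℝ := G ^ (((k + 1 : ℕ) : ℝ)⁻¹) with hρ0
  have hρ0pos : 0 < ρ0 := Real.rpow_pos_of_pos hGpos _
  have hρ0pow : ρ0 ^ (k + 1) = G := by
    rw [hρ0, Real.rpow_inv_natCast_pow hGpos.le (by omega)]
  -- l of the capped index
  set q : Fin (k + 1) → ℝ := fun i => min (l i) lp with hq
  have hqpos : ∀ i, 0 < q i := fun i => lt_min (hlpos i) (hlpos pen)
  have hqmono : Monotone q := fun i i' h => min_le_min (H.mono h) le_rfl
  have hq1 : ∀ i : Fin k, q i.castSucc = l i.castSucc := by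
    intro i
    apply min_eq_left
    apply H.mono
    rw [Fin.le_def]
    simp only [hpen, Fin.val_castSucc]
    have := i.isLt
    omega
  have hq2 : q (Fin.last k) = lp := by
    apply min_eq_right
    apply H.mono
    rw [Fin.le_def]
    simp only [hpen, Fin.val_last]
    omega
  have hqprod : ∏ i, q i = G := by
    rw [Fin.prod_univ_castSucc, hq2, hG]
    congr 1
    exact Finset.prod_congr rfl fun i _ => hq1 i
  set ρ : Fin (k + 1) → ℝ := fun i => ρ0 / q i with hρ
  have hρpos : ∀ i, 0 < ρ i := fun i => div_pos hρ0pos (hqpos i)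
  have hρanti : Antitone ρ := fun i i' h => div_le_div_of_nonneg_left hρ0pos.le (hqpos i) (hqmono h)
  have hρprod : ∏ i, ρ i = 1 := by
    rw [Finset.prod_div_distrib, hqprod, Finset.prod_const, Finset.card_univ, Fintype.card_fin,
      hρ0pow, div_self hGpos.ne']
  have hρl : Monotone fun i => ρ i * l i := by
    intro i i' h
    simp only [hρ, hq]
    rw [div_mul_eq_mul_div, div_mul_eq_mul_div, mul_div_assoc, mul_div_assoc]
    apply mul_le_mul_of_nonneg_left _ hρ0pos.le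
    have hl := H.mono h
    rw [div_le_div_iff₀ (lt_min (hlpos i) (hlpos pen)) (lt_min (hlpos i') (hlpos pen))]
    rcases le_total (l i) lp with h1 | h1
    · rw [min_eq_left h1]
      rw [mul_comm]
      exact mul_le_mul_of_nonneg_right (min_le_left _ _) (hlpos i).le
    · rw [min_eq_right h1, min_eq_right (h1.trans hl)]
      exact mul_le_mul_of_nonneg_right hl (hlpos pen).le
  obtain ⟨π, hπa, hπb⟩ := H.davenport hΛ hB ρ hρpos hρanti hρl
  have hB' : ∀ j, 0 < B j / ρ (π.symm j) := fun j => div_pos (hB j) (hρpos _)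
  obtain ⟨x', l', H'⟩ := exists_minima Λ (B := fun j => B j / ρ (π.symm j)) hΛ hB'
  have hC1 := one_le_penC (n := k + 1) (by omega)
  have hCpos : 0 < penC (k + 1) := by linarith
  have hnn : (0 : ℝ) < ((k + 1 : ℕ) : ℝ) ^ (k + 1) := by
    have : 0 < k + 1 := by omega
    positivity
  -- bounds for the minima
  have hl' : ∀ i : Fin k, l' i.castSucc ≤ penC (k + 1) * ρ0 := by
    intro i
    have h1 := (hπb x' l' H' i.castSucc).2
    have h2 : ρ i.castSucc * l i.castSucc = ρ0 := by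
      simp only [hρ]
      rw [hq1, div_mul_cancel₀ _ (hlpos _).ne']
    rw [h2] at h1
    exact h1
  -- the points are in the hyperplane
  have hmem : ∀ i : Fin k, qv (x' i.castSucc) ∈ flag x k := by
    intro i
    by_contra hcon
    have h1 := hπa (Fin.last k) _ (H'.mem i.castSucc) (by simpa using hcon) _ (H'.le i.castSucc)
    have h2 : ρ (Fin.last k) * l (Fin.last k) = ρ0 * (l (Fin.last k) / lp) := by
      simp only [hρ]
      rw [hq2]
      ring
    rw [h2] at h1
    have h3 : ρ0 * (l (Fin.last k) / lp) ≤ ((k + 1 : ℕ) : ℝ) ^ (k + 1) * (penC (k + 1) * ρ0) :=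
      h1.trans (mul_le_mul_of_nonneg_left (hl' i) hnn.le)
    have h4 : l (Fin.last k) / lp ≤ ((k + 1 : ℕ) : ℝ) ^ (k + 1) * penC (k + 1) := by
      have h5 : ρ0 * (l (Fin.last k) / lp) ≤ ρ0 * (((k + 1 : ℕ) : ℝ) ^ (k + 1) * penC (k + 1)) := by linarith
      exact le_of_mul_le_mul_left h5 hρ0pos
    rw [div_le_iff₀ (hlpos pen)] at h4
    have h6 : l (Fin.last k) ≤ (((k + 1 : ℕ) : ℝ) ^ (k + 1) * penC (k + 1)) * (γ * l (Fin.last k)) :=
      h4.trans (mul_le_mul_of_nonneg_left hγ (mul_pos hnn hCpos).le)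
    have h7 := H.pos (Fin.last k)
    nlinarith
  refine ⟨fun j => 1 / ρ (π.symm j), fun i => x' i.castSucc, penC (k + 1) * ρ0, ?_, ?_, ?_, ?_, ?_, ?_,
    ?_, ?_, ?_⟩
  · exact fun j => one_div_pos.2 (hρpos _)
  · rw [Finset.prod_div_distrib, Finset.prod_const_one, Equiv.prod_comp π.symm ρ, hρprod, div_one]
  · -- bounds for the ratios
    have hql : ∀ i, l 0 ≤ q i := fun i => le_min (H.mono (Fin.zero_le _)) (H.mono (Fin.zero_le _))
    have hqu : ∀ i, q i ≤ l (Fin.last k) := fun i => (min_le_left _ _).trans (H.mono (Fin.le_last _))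
    have hρ0l : l 0 ≤ ρ0 := by
      apply le_of_pow_le_pow_left₀ (n := k + 1) (by omega) hρ0pos.le
      rw [hρ0pow, ← hqprod]
      calc l 0 ^ (k + 1) = ∏ _i : Fin (k + 1), l 0 := by simp
        _ ≤ ∏ i, q i := Finset.prod_le_prod (fun _ _ => (hlpos 0).le) fun i _ => hql i
    have hρ0u : ρ0 ≤ l (Fin.last k) := by
      apply le_of_pow_le_pow_left₀ (n := k + 1) (by omega) (hlpos _).le
      rw [hρ0pow, ← hqprod]
      calc ∏ i, q i ≤ ∏ _i : Fin (k + 1), l (Fin.last k) :=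
            Finset.prod_le_prod (fun i _ => (hqpos i).le) fun i _ => hqu i
        _ = _ := by simp
    intro j
    simp only [hρ, one_div_div]
    constructor
    · exact div_le_div₀ (hqpos _).le (hql _) hρ0pos hρ0u
    · exact div_le_div₀ (hlpos _).le (hqu _) (hlpos 0) hρ0l
  · exact fun i => H'.mem _
  · exact H'.indep.comp _ (Fin.castSucc_injective k)
  · exact hmem
  · exact mul_pos hCpos hρ0pos
  · -- the size of `M`
    have hup := H.upper hΛ hB
    have h1 : G ≤ γ * ∏ i, l i := by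
      rw [hG, Fin.prod_univ_castSucc]
      calc (∏ i : Fin k, l i.castSucc) * lp ≤ (∏ i : Fin k, l i.castSucc) * (γ * l (Fin.last k)) :=
            mul_le_mul_of_nonneg_left hγ (Finset.prod_nonneg fun i _ => (hlpos _).le)
        _ = _ := by ring
    have hγ0 : 0 < γ := by
      by_contra hcon
      push Not at hcon
      have h7 := H.pos (Fin.last k)
      have h8 := H.pos pen
      nlinarith
    have hBpos : 0 < ∏ j, B j := Finset.prod_pos fun j _ => hB j
    rw [mul_pow, hρ0pow]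
    calc penC (k + 1) ^ (k + 1) * G * ∏ j, B j ≤ penC (k + 1) ^ (k + 1) * (γ * ∏ i, l i) * ∏ j, B j := by gcongr
      _ = penC (k + 1) ^ (k + 1) * γ * ((∏ i, l i) * ∏ j, B j) := by ring
      _ ≤ penC (k + 1) ^ (k + 1) * γ * ((((k + 1 : ℕ) : ℝ) ^ (k + 1)) ^ (k + 1) * Λ.index) := by gcongr
      _ = _ := by ring
  · intro i j
    refine (H'.le i.castSucc j).trans ?_
    have h1 : B j / ρ (π.symm j) = 1 / ρ (π.symm j) * B j := by ring
    rw [h1]
    exact mul_le_mul_of_nonneg_right (hl' i) (mul_pos (one_div_pos.2 (hρpos _)) (hB j)).le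

/-- independent vectors of `Λ` with gauges `m i`: the product of the first minima is at most the
product of the `m i`. -/
theorem IsMinima.prod_le {k n : ℕ} (hkn : k ≤ n) {Λ : AddSubgroup (Fin n → ℤ)} {B : Fin n → ℝ}
    (hB : ∀ j, 0 < B j) {x : Fin n → Fin n → ℤ} {l : Fin n → ℝ} (H : IsMinima Λ B x l)
    (X : Fin k → Fin n → ℤ) (hX : ∀ i, X i ∈ Λ)
    (hli : LinearIndependent ℚ (fun i => qv (X i))) (m : Fin k → ℝ)
    (hle : ∀ i j, |(X i j : ℝ)| ≤ m i * B j) :
    ∏ i : Fin k, l (Fin.castLE hkn i) ≤ ∏ i, m i := by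
  classical
  set σ := Tuple.sort m with hσ
  have hmono : Monotone (m ∘ σ) := Tuple.monotone_sort m
  have h1 : ∀ i : Fin k, l (Fin.castLE hkn i) ≤ m (σ i) := by
    intro i
    have hli' : LinearIndependent ℚ (fun t : Fin (i + 1) =>
        qv (X (σ (Fin.castLE (Nat.succ_le_of_lt i.isLt) t)))) :=
      hli.comp _ (σ.injective.comp (Fin.castLE_injective _))
    refine H.le_of_independent hB (Fin.castLE hkn i) (Nat.lt_succ_self _) _ (fun t => hX _)
      hli' _ ?_
    intro t j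
    refine (hle _ j).trans (mul_le_mul_of_nonneg_right (hmono ?_) (hB j).le)
    exact Nat.lt_succ_iff.1 t.isLt
  calc ∏ i : Fin k, l (Fin.castLE hkn i) ≤ ∏ i, m (σ i) :=
        Finset.prod_le_prod (fun i _ => (H.pos _).le) fun i _ => h1 i
    _ = ∏ i, m i := Equiv.prod_comp σ m

/-- constant of `penultimate` -/
noncomputable def penK (n : ℕ) : ℝ :=
  n.factorial * (penC n ^ n * ((n : ℝ) ^ n) ^ n)

/-- **Reduction to the penultimate minimum.** `X i ∈ Λ` independent with gauges at most `m i`,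
the last one much larger than the others and the product of the gauges essentially minimal. Then
after a rescaling `r j * B j` of the box with `∏ r j = 1` the hyperplane spanned by all `X i`
except the last contains `k` independent points of `Λ` of small gauge `M`. -/
theorem penultimate {k : ℕ} (hk : 1 ≤ k) {Λ : AddSubgroup (Fin (k + 1) → ℤ)}
    (hΛ : Λ.index ≠ 0) {B : Fin (k + 1) → ℝ} (hB : ∀ j, 0 < B j)
    (X : Fin (k + 1) → Fin (k + 1) → ℤ) (hX : ∀ i, X i ∈ Λ)
    (hli : LinearIndependent ℚ (fun i => qv (X i))) (m : Fin (k + 1) → ℝ) (hm : ∀ i, 0 < m i)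
    (hle : ∀ i j, |(X i j : ℝ)| ≤ m i * B j) (C₀ : ℝ)
    (hC₀ : (∏ i, m i) * ∏ j, B j ≤ C₀ * Λ.index) (γ : ℝ)
    (hγ : ∀ i : Fin k, m i.castSucc ≤ γ * m (Fin.last k))
    (hsmall : penK (k + 1) * (C₀ * γ) < 1) :
    ∃ (r : Fin (k + 1) → ℝ) (z : Fin k → Fin (k + 1) → ℤ) (M : ℝ),
      (∀ j, 0 < r j) ∧ ∏ j, r j = 1 ∧
      (∀ b : ℝ, (∀ j, B j ≤ b) → ∀ j,
        r j * ∏ j, B j ≤ (((k + 1 : ℕ) : ℝ) ^ (k + 1)) ^ (k + 1) * Λ.index * b ^ (k + 1) ∧
        ∏ j, B j ≤ r j * ((((k + 1 : ℕ) : ℝ) ^ (k + 1)) ^ (k + 1) * Λ.index * b ^ (k + 1))) ∧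
      (∀ i, z i ∈ Λ) ∧ LinearIndependent ℚ (fun i => qv (z i)) ∧
      (∀ i, qv (z i) ∈ Submodule.span ℚ (Set.range fun i : Fin k => qv (X i.castSucc))) ∧
      0 < M ∧ M ^ (k + 1) * ∏ j, B j ≤ penK (k + 1) * (C₀ * γ) * Λ.index ∧
      ∀ i j, |(z i j : ℝ)| ≤ M * (r j * B j) := by
  classical
  obtain ⟨x, l, H⟩ := exists_minima Λ hΛ hB
  have hBpos : 0 < ∏ j, B j := Finset.prod_pos fun j _ => hB j
  have hmlast := hm (Fin.last k)
  have hllast := H.pos (Fin.last k)
  have hγ0 : 0 < γ := by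
    have h1 := hγ ⟨0, hk⟩
    have h2 := hm (⟨0, hk⟩ : Fin k).castSucc
    by_contra hcon
    push Not at hcon
    nlinarith
  have hidx : (0 : ℝ) < Λ.index := by exact_mod_cast Nat.pos_of_ne_zero hΛ
  have hC₀0 : 0 < C₀ := by
    have h1 : 0 < (∏ i, m i) * ∏ j, B j := mul_pos (Finset.prod_pos fun i _ => hm i) hBpos
    by_contra hcon
    push Not at hcon
    nlinarith
  have hXk : LinearIndependent ℚ (fun i : Fin k => qv (X i.castSucc)) :=
    hli.comp _ (Fin.castSucc_injective k)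
  -- the penultimate minimum
  have h1 : l ⟨k - 1, by omega⟩ ≤ γ * m (Fin.last k) := by
    refine H.le_of_independent hB ⟨k - 1, by omega⟩ (d := k) (by simp only; omega)
      (fun i => X i.castSucc) (fun i => hX _) hXk _ ?_
    intro t j
    exact (hle _ j).trans (mul_le_mul_of_nonneg_right (hγ t) (hB j).le)
  -- the last minimum
  have h2 : m (Fin.last k) ≤ (C₀ * (k + 1).factorial) * l (Fin.last k) := by
    have h3 := index_le_of_linearIndependent Λ x H.mem H.indep l B H.le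
    have h4 := H.prod_le (Nat.le_succ k) hB (fun i => X i.castSucc) (fun i => hX _) hXk
      (fun i => m i.castSucc) fun i j => hle _ j
    have h5 : ∏ i : Fin k, l (Fin.castLE (Nat.le_succ k) i) = ∏ i : Fin k, l i.castSucc :=
      Finset.prod_congr rfl fun i _ => rfl
    rw [h5] at h4
    rw [Fin.prod_univ_castSucc] at hC₀ h3
    have hP : 0 < ∏ i : Fin k, m i.castSucc := Finset.prod_pos fun i _ => hm _
    have h6 : (∏ i : Fin k, m i.castSucc) * (∏ j, B j) * m (Fin.last k) ≤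
        (∏ i : Fin k, m i.castSucc) * (∏ j, B j) *
          ((C₀ * (k + 1).factorial) * l (Fin.last k)) := by
      calc (∏ i : Fin k, m i.castSucc) * (∏ j, B j) * m (Fin.last k)
          = (∏ i : Fin k, m i.castSucc) * m (Fin.last k) * (∏ j, B j) := by ring
        _ ≤ C₀ * Λ.index := hC₀
        _ ≤ C₀ * (((k + 1).factorial : ℝ) *
            (((∏ i : Fin k, l i.castSucc) * l (Fin.last k)) * ∏ j, B j)) := by gcongr
        _ ≤ C₀ * (((k + 1).factorial : ℝ) *
            (((∏ i : Fin k, m i.castSucc) * l (Fin.last k)) * ∏ j, B j)) := by gcongr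
        _ = _ := by ring
    exact le_of_mul_le_mul_left h6 (mul_pos hP hBpos)
  have hfac : (1 : ℝ) ≤ ((k + 1).factorial : ℝ) := by
    exact_mod_cast Nat.one_le_iff_ne_zero.2 (Nat.factorial_ne_zero _)
  have hpenC := one_le_penC (n := k + 1) (by omega)
  have hkk : (1 : ℝ) ≤ ((k + 1 : ℕ) : ℝ) ^ (k + 1) :=
    one_le_pow₀ (by exact_mod_cast (by omega : 1 ≤ k + 1))
  have hCγ : 0 < C₀ * γ := mul_pos hC₀0 hγ0
  have hpow : ((k + 1 : ℕ) : ℝ) ^ (k + 1) * penC (k + 1) ≤
      penC (k + 1) ^ (k + 1) * (((k + 1 : ℕ) : ℝ) ^ (k + 1)) ^ (k + 1) := by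
    rw [mul_comm]
    apply mul_le_mul _ _ (by positivity) (by positivity)
    · exact le_self_pow₀ hpenC (by omega)
    · exact le_self_pow₀ hkk (by omega)
  have h3 : l ⟨k - 1, by omega⟩ ≤ (γ * (C₀ * (k + 1).factorial)) * l (Fin.last k) := by
    refine h1.trans ?_
    rw [mul_assoc]
    exact mul_le_mul_of_nonneg_left h2 hγ0.le
  have hs1 : (((k + 1 : ℕ) : ℝ) ^ (k + 1) * penC (k + 1)) * (γ * (C₀ * (k + 1).factorial)) < 1 := by
    refine lt_of_le_of_lt ?_ hsmall
    rw [penK]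
    calc (((k + 1 : ℕ) : ℝ) ^ (k + 1) * penC (k + 1)) * (γ * (C₀ * (k + 1).factorial))
        ≤ (penC (k + 1) ^ (k + 1) * (((k + 1 : ℕ) : ℝ) ^ (k + 1)) ^ (k + 1)) *
          (γ * (C₀ * (k + 1).factorial)) := by
          apply mul_le_mul_of_nonneg_right hpow
          positivity
      _ = _ := by ring
  obtain ⟨r, z, M, hr, hr1, hrb, hz, hzli, hzmem, hM, hMle, hzle⟩ :=
    H.penultimate hk hΛ hB _ h3 hs1
  -- the flag is the span of the `X i`
  have hflag : Submodule.span ℚ (Set.range fun i : Fin k => qv (X i.castSucc)) = flag x k := by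
    apply Submodule.eq_of_le_of_finrank_le
    · rw [Submodule.span_le]
      rintro _ ⟨i, rfl⟩
      apply H.greedy (Fin.last k) _ (hX _)
      intro j
      refine (hle _ j).trans_lt (mul_lt_mul_of_pos_right ?_ (hB j))
      calc m i.castSucc ≤ γ * m (Fin.last k) := hγ i
        _ ≤ γ * ((C₀ * (k + 1).factorial) * l (Fin.last k)) :=
            mul_le_mul_of_nonneg_left h2 hγ0.le
        _ = (1 * (γ * (C₀ * (k + 1).factorial))) * l (Fin.last k) := by ring
        _ ≤ ((((k + 1 : ℕ) : ℝ) ^ (k + 1) * penC (k + 1)) *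
            (γ * (C₀ * (k + 1).factorial))) * l (Fin.last k) := by
            apply mul_le_mul_of_nonneg_right _ hllast.le
            apply mul_le_mul_of_nonneg_right _ (by positivity)
            exact one_le_mul_of_one_le_of_one_le hkk hpenC
        _ < 1 * l (Fin.last k) := mul_lt_mul_of_pos_right hs1 hllast
        _ = l (Fin.last k) := one_mul _
    · rw [finrank_span_eq_card hXk, Fintype.card_fin]
      exact finrank_flag_le x k
  refine ⟨r, z, M, hr, hr1, ?_, hz, hzli, fun i => by rw [hflag]; exact hzmem i, hM, ?_, hzle⟩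
  · intro b hb j
    have hb0 : 0 < b := (hB 0).trans_le (hb 0)
    have hup := H.upper hΛ hB
    have h4 : ∀ i, 1 ≤ l i * b := fun i => H.one_le i b hb
    -- ratio of extreme minima
    have h5 : l (Fin.last k) * b * ∏ j, B j ≤
        (((k + 1 : ℕ) : ℝ) ^ (k + 1)) ^ (k + 1) * Λ.index * b ^ (k + 1) := by
      have h6 : 1 ≤ ∏ i : Fin k, (l i.castSucc * b) := by
        have := Finset.prod_le_prod (s := (univ : Finset (Fin k))) (f := fun _ => (1 : ℝ))
          (g := fun i => l i.castSucc * b) (fun _ _ => zero_le_one) fun i _ => h4 _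
        simpa using this
      rw [Fin.prod_univ_castSucc] at hup
      calc l (Fin.last k) * b * ∏ j, B j
          = 1 * (l (Fin.last k) * b * ∏ j, B j) := (one_mul _).symm
        _ ≤ (∏ i : Fin k, (l i.castSucc * b)) * (l (Fin.last k) * b * ∏ j, B j) :=
            mul_le_mul_of_nonneg_right h6 (by positivity)
        _ = ((∏ i : Fin k, l i.castSucc) * l (Fin.last k) * ∏ j, B j) * b ^ (k + 1) := by
            rw [Finset.prod_mul_distrib, Finset.prod_const, Finset.card_univ, Fintype.card_fin]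
            ring
        _ ≤ _ := mul_le_mul_of_nonneg_right hup (by positivity)
    have h7 : l (Fin.last k) / l 0 ≤ l (Fin.last k) * b := by
      rw [div_le_iff₀ (H.pos 0)]
      have := h4 0
      nlinarith
    constructor
    · calc r j * ∏ j, B j ≤ (l (Fin.last k) * b) * ∏ j, B j :=
            mul_le_mul_of_nonneg_right ((hrb j).2.trans h7) hBpos.le
        _ ≤ _ := h5
    · have h8 : 1 ≤ r j * (l (Fin.last k) * b) := by
        have h9 := (hrb j).1
        have h10 : l 0 / l (Fin.last k) * (l (Fin.last k) * b) = l 0 * b := by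
          field_simp
        calc 1 ≤ l 0 * b := h4 0
          _ = l 0 / l (Fin.last k) * (l (Fin.last k) * b) := h10.symm
          _ ≤ _ := mul_le_mul_of_nonneg_right h9 (by positivity)
      calc ∏ j, B j = 1 * ∏ j, B j := (one_mul _).symm
        _ ≤ (r j * (l (Fin.last k) * b)) * ∏ j, B j := mul_le_mul_of_nonneg_right h8 hBpos.le
        _ = r j * (l (Fin.last k) * b * ∏ j, B j) := by ring
        _ ≤ _ := mul_le_mul_of_nonneg_left h5 (hr j).le
  · refine hMle.trans (le_of_eq ?_)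
    rw [penK]
    ring

end Pool.Agent.Lib.SubspaceH13
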