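import Pool.Agent.Lib.SubspaceH13.Flag

/-!
# Successive minima of a finite index subgroup of `ℤ ^ n` with respect to a box

`IsMinima Λ B x l`: `x 0, x 1, ...` are chosen greedily in `Λ` for the gauge
`F y = max_j |y j| / B j`, and `l i = F (x i)`.

* `exists_minima`: existence.
* `IsMinima.upper`: `∏ l i * ∏ B j ≤ n ^ (n * n) * [ℤ ^ n : Λ]` (Minkowski's second theorem, upper
  bound, with a worse constant; elementary proof by Davenport's ordering and the pigeonhole
  principle).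
* `index_le_of_linearIndependent`: the lower bound, for arbitrary linearly independent vectors
  of `Λ`.
-/

namespace Pool.Agent.Lib.SubspaceH13

open Finset

/-- cast to rational vectors -/
def qv {n : ℕ} (y : Fin n → ℤ) : Fin n → ℚ := fun j => (y j : ℚ)

/-- span of the first `i` vectors -/
def flag {n : ℕ} (x : Fin n → Fin n → ℤ) (i : ℕ) : Submodule ℚ (Fin n → ℚ) :=
  Submodule.span ℚ ((fun t => qv (x t)) '' {t | (t : ℕ) < i})

theorem flag_mono {n : ℕ} (x : Fin n → Fin n → ℤ) {i i' : ℕ} (h : i ≤ i') :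
    flag x i ≤ flag x i' :=
  Submodule.span_mono (Set.image_mono fun t (ht : (t : ℕ) < i) => lt_of_lt_of_le ht h)

theorem qv_mem_flag {n : ℕ} (x : Fin n → Fin n → ℤ) {t : Fin n} {i : ℕ} (h : (t : ℕ) < i) :
    qv (x t) ∈ flag x i :=
  Submodule.subset_span ⟨t, h, rfl⟩

theorem linearIndependent_of_notMem_flag {n : ℕ} (x : Fin n → Fin n → ℤ)
    (h : ∀ i : Fin n, qv (x i) ∉ flag x i) : LinearIndependent ℚ (fun i => qv (x i)) := by
  classical
  by_contra hcon
  obtain ⟨g, hg, i0, hi0⟩ := Fintype.not_linearIndependent_iff.1 hcon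
  obtain ⟨i, hi, hmax⟩ := Finset.exists_max_image (univ.filter fun i => g i ≠ 0)
    (fun i => (i : ℕ)) ⟨i0, Finset.mem_filter.2 ⟨mem_univ _, hi0⟩⟩
  have hgi : g i ≠ 0 := (Finset.mem_filter.1 hi).2
  apply h i
  rw [← Finset.add_sum_erase _ _ (mem_univ i)] at hg
  have h1 : qv (x i) = -(g i)⁻¹ • ∑ t ∈ univ.erase i, g t • qv (x t) := by
    rw [eq_neg_of_add_eq_zero_right hg]
    rw [smul_neg, neg_smul, neg_neg, smul_smul, inv_mul_cancel₀ hgi, one_smul]
  rw [h1]
  refine Submodule.smul_mem _ _ (Submodule.sum_mem _ fun t ht => ?_)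
  by_cases hgt : g t = 0
  · rw [hgt, zero_smul]; exact Submodule.zero_mem _
  · refine Submodule.smul_mem _ _ (qv_mem_flag x ?_)
    have h2 := hmax t (Finset.mem_filter.2 ⟨mem_univ _, hgt⟩)
    have h3 : (t : ℕ) ≠ i := fun h' => (Finset.ne_of_mem_erase ht) (Fin.ext h')
    omega

theorem qv_zero {n : ℕ} : qv (0 : Fin n → ℤ) = 0 := by
  funext j; simp [qv]

theorem qv_injective {n : ℕ} : Function.Injective (qv (n := n)) := by
  intro y z h
  funext j
  have := congrFun h j
  simpa [qv] using this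

/-- greedily chosen successive minima of the subgroup `Λ` for the box `|y j| ≤ B j` -/
structure IsMinima {n : ℕ} (Λ : AddSubgroup (Fin n → ℤ)) (B : Fin n → ℝ)
    (x : Fin n → Fin n → ℤ) (l : Fin n → ℝ) : Prop where
  mem : ∀ i, x i ∈ Λ
  indep : LinearIndependent ℚ (fun i => qv (x i))
  mono : Monotone l
  pos : ∀ i, 0 < l i
  le : ∀ i j, |(x i j : ℝ)| ≤ l i * B j
  greedy : ∀ i, ∀ y ∈ Λ, (∀ j, |(y j : ℝ)| < l i * B j) → qv y ∈ flag x i

section existence

variable {n : ℕ} (Λ : AddSubgroup (Fin n → ℤ)) (B : Fin n → ℝ)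

/-- the gauge of the box -/
noncomputable def gauge (B : Fin n → ℝ) (y : Fin n → ℤ) : ℝ := ‖fun j => (y j : ℝ) / B j‖

variable {B}

theorem gauge_le_iff (hB : ∀ j, 0 < B j) {y : Fin n → ℤ} {r : ℝ} (hr : 0 ≤ r) :
    gauge B y ≤ r ↔ ∀ j, |(y j : ℝ)| ≤ r * B j := by
  rw [gauge, pi_norm_le_iff_of_nonneg hr]
  refine forall_congr' fun j => ?_
  rw [Real.norm_eq_abs, abs_div, abs_of_pos (hB j), div_le_iff₀ (hB j)]

theorem gauge_lt_iff (hB : ∀ j, 0 < B j) {y : Fin n → ℤ} {r : ℝ} (hr : 0 < r) :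
    gauge B y < r ↔ ∀ j, |(y j : ℝ)| < r * B j := by
  rw [gauge, pi_norm_lt_iff hr]
  refine forall_congr' fun j => ?_
  rw [Real.norm_eq_abs, abs_div, abs_of_pos (hB j), div_lt_iff₀ (hB j)]

theorem gauge_nonneg (y : Fin n → ℤ) : 0 ≤ gauge B y := norm_nonneg _

theorem gauge_pos (hB : ∀ j, 0 < B j) {y : Fin n → ℤ} (hy : y ≠ 0) : 0 < gauge B y := by
  rw [gauge, norm_pos_iff]
  intro h
  apply hy
  funext j
  have := congrFun h j
  simp only [Pi.zero_apply, div_eq_zero_iff, Int.cast_eq_zero] at this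
  exact this.resolve_right (hB j).ne'

theorem finite_gauge_le (hB : ∀ j, 0 < B j) (r : ℝ) : {y : Fin n → ℤ | gauge B y ≤ r}.Finite := by
  rcases lt_or_ge r 0 with hr | hr
  · convert Set.finite_empty (α := Fin n → ℤ)
    ext y
    simp only [Set.mem_ofPred_eq, Set.mem_empty_iff_false, iff_false, not_le]
    exact hr.trans_le (gauge_nonneg y)
  · refine (Set.finite_Icc (fun j => -⌈r * B j⌉) (fun j => ⌈r * B j⌉)).subset ?_
    intro y hy
    rw [Set.mem_ofPred_eq, gauge_le_iff hB hr] at hy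
    have h1 : ∀ j, |y j| ≤ ⌈r * B j⌉ := by
      intro j
      have := (hy j).trans (Int.le_ceil _)
      exact_mod_cast this
    exact ⟨fun j => (abs_le.1 (h1 j)).1, fun j => (abs_le.1 (h1 j)).2⟩

theorem exists_argmin (hB : ∀ j, 0 < B j) (S : Set (Fin n → ℤ)) (hS : S.Nonempty) :
    ∃ z ∈ S, ∀ y ∈ S, gauge B z ≤ gauge B y := by
  obtain ⟨y0, hy0⟩ := hS
  obtain ⟨z, hz, hzmin⟩ := Set.exists_min_image {y | y ∈ S ∧ gauge B y ≤ gauge B y0} (gauge B)
    ((finite_gauge_le hB (gauge B y0)).subset fun y hy => hy.2) ⟨y0, hy0, le_rfl⟩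
  refine ⟨z, hz.1, fun y hy => ?_⟩
  rcases le_total (gauge B y) (gauge B y0) with h | h
  · exact hzmin y ⟨hy, h⟩
  · exact hz.2.trans h

theorem exists_not_mem_of_finrank_lt (hΛ : Λ.index ≠ 0) (W : Submodule ℚ (Fin n → ℚ))
    (hW : Module.finrank ℚ W < n) : ∃ y ∈ Λ, qv y ∉ W := by
  by_contra hcon
  push Not at hcon
  have htop : W = ⊤ := by
    rw [eq_top_iff]
    intro z _
    have hz : z = ∑ j, z j • (Pi.single j (1 : ℚ) : Fin n → ℚ) := by
      funext k
      simp [Finset.sum_apply, Pi.single_apply]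
    rw [hz]
    refine Submodule.sum_mem _ fun j _ => Submodule.smul_mem _ _ ?_
    have h1 : (Λ.index : ℕ) • (Pi.single j (1 : ℤ) : Fin n → ℤ) ∈ Λ := Λ.nsmul_index_mem _
    have h2 := hcon _ h1
    have h3 : qv ((Λ.index : ℕ) • (Pi.single j (1 : ℤ) : Fin n → ℤ)) =
        (Λ.index : ℚ) • (Pi.single j (1 : ℚ) : Fin n → ℚ) := by
      funext k
      by_cases hk : k = j
      · subst hk; simp [qv]
      · simp [qv, Pi.single_eq_of_ne hk]
    rw [h3] at h2
    have h4 := W.smul_mem ((Λ.index : ℚ)⁻¹) h2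
    rwa [smul_smul, inv_mul_cancel₀ (by exact_mod_cast hΛ), one_smul] at h4
  rw [htop, finrank_top, Module.finrank_fin_fun] at hW
  exact lt_irrefl _ hW

theorem exists_greedy (hΛ : Λ.index ≠ 0) (hB : ∀ j, 0 < B j) (k : ℕ) (hk : k ≤ n) :
    ∃ x : Fin n → Fin n → ℤ, ∀ i : Fin n, (i : ℕ) < k → x i ∈ Λ ∧ qv (x i) ∉ flag x i ∧
      ∀ y ∈ Λ, qv y ∉ flag x i → gauge B (x i) ≤ gauge B y := by
  classical
  induction k with
  | zero => exact ⟨fun _ _ => 0, fun i hi => absurd hi (by omega)⟩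
  | succ k ih =>
    obtain ⟨x, hx⟩ := ih (by omega)
    have hfin : Module.finrank ℚ (flag x k) < n := by
      have h1 : flag x k ≤ Submodule.span ℚ
          (Finset.image (fun t => qv (x t)) (univ.filter fun t : Fin n => (t : ℕ) < k) :
            Set (Fin n → ℚ)) := by
        apply Submodule.span_mono
        rintro _ ⟨t, ht, rfl⟩
        rw [Finset.mem_coe, Finset.mem_image]
        exact ⟨t, Finset.mem_filter.2 ⟨mem_univ _, ht⟩, rfl⟩
      have h2 : (Finset.image (fun t => qv (x t))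
          (univ.filter fun t : Fin n => (t : ℕ) < k)).card ≤ k := by
        refine Finset.card_image_le.trans ?_
        have h3 : (univ.filter fun t : Fin n => (t : ℕ) < k).card ≤ (Finset.range k).card :=
          Finset.card_le_card_of_injOn (fun t => (t : ℕ))
            (fun t ht => Finset.mem_coe.2 (Finset.mem_range.2 (Finset.mem_filter.1 ht).2))
            (fun a _ b _ h => Fin.ext h)
        simpa using h3
      calc Module.finrank ℚ (flag x k) ≤ _ := Submodule.finrank_mono h1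
        _ ≤ _ := finrank_span_finset_le_card _
        _ ≤ k := h2
        _ < n := by omega
    obtain ⟨y0, hy0⟩ := exists_not_mem_of_finrank_lt Λ hΛ _ hfin
    obtain ⟨z, hz, hzmin⟩ := exists_argmin hB {y | y ∈ Λ ∧ qv y ∉ flag x k} ⟨y0, hy0⟩
    set K : Fin n := ⟨k, by omega⟩ with hK
    have hflag : ∀ i : ℕ, i ≤ k → flag (Function.update x K z) i = flag x i := by
      intro i hi
      unfold flag
      congr 1
      apply Set.image_congr
      intro t (ht : (t : ℕ) < i)
      rw [Function.update_of_ne]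
      intro h
      have := congrArg Fin.val h
      simp only [hK] at this
      omega
    refine ⟨Function.update x K z, fun i hi => ?_⟩
    rw [hflag i (by omega)]
    rcases Nat.lt_or_ge (i : ℕ) k with hlt | hge
    · rw [Function.update_of_ne (fun h => by have := congrArg Fin.val h; simp only [hK] at this; omega)]
      exact hx i hlt
    · have hik : i = K := Fin.ext (by simp only [hK]; omega)
      subst hik
      rw [Function.update_self]
      exact ⟨hz.1, hz.2, fun y hy hy2 => hzmin y ⟨hy, hy2⟩⟩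

theorem exists_minima (hΛ : Λ.index ≠ 0) (hB : ∀ j, 0 < B j) :
    ∃ x l, IsMinima Λ B x l := by
  obtain ⟨x, hx⟩ := exists_greedy Λ hΛ hB n le_rfl
  have hx' := fun i : Fin n => hx i i.isLt
  have hne : ∀ i, x i ≠ 0 := by
    intro i h0
    apply (hx' i).2.1
    rw [h0, qv_zero]
    exact Submodule.zero_mem _
  refine ⟨x, fun i => gauge B (x i), ⟨fun i => (hx' i).1, ?_, ?_, fun i => gauge_pos hB (hne i),
    fun i => (gauge_le_iff hB (gauge_nonneg _)).1 le_rfl, ?_⟩⟩
  · -- linear independence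
    exact linearIndependent_of_notMem_flag x fun i => (hx' i).2.1
  · intro i i' hii'
    exact (hx' i).2.2 _ (hx' i').1 fun h => (hx' i').2.1 (flag_mono x hii' h)
  · intro i y hy hlt
    by_contra hcon
    have h1 := (hx' i).2.2 y hy hcon
    have h2 := (gauge_lt_iff hB (gauge_pos hB (hne i))).2 hlt
    exact absurd h1 (not_le.2 h2)

end existence

section lower

/-- The determinant of `n` vectors of `Λ` is divisible by the index of `Λ`. -/
theorem index_dvd_det {n : ℕ} (Λ : AddSubgroup (Fin n → ℤ)) (x : Fin n → Fin n → ℤ)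
    (hx : ∀ i, x i ∈ Λ) : (Λ.index : ℤ) ∣ Matrix.det (Matrix.of x) := by
  classical
  by_cases hli : LinearIndependent ℤ x
  · set N : Submodule ℤ (Fin n → ℤ) := Submodule.span ℤ (Set.range x) with hN
    have h1 := Submodule.natAbs_det_basis_change (Pi.basisFun ℤ (Fin n)) N (Module.Basis.span hli)
    have h2 : ((Subtype.val : N → Fin n → ℤ) ∘ (Module.Basis.span hli)) = x := by
      funext i
      simp [Module.Basis.span_apply]
    rw [h2, Pi.basisFun_det] at h1
    have h3 : N.toAddSubgroup ≤ Λ := by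
      intro y hy
      have : N ≤ AddSubgroup.toIntSubmodule Λ := by
        rw [hN, Submodule.span_le]
        rintro _ ⟨i, rfl⟩
        exact hx i
      exact this hy
    have h4 : Λ.index ∣ N.toAddSubgroup.index := AddSubgroup.index_dvd_of_le h3
    have h5 : N.toAddSubgroup.index = Nat.card ((Fin n → ℤ) ⧸ N) := rfl
    rw [h5, ← h1] at h4
    exact Int.natCast_dvd.2 h4
  · have : Matrix.det (Matrix.of x) = 0 := by
      by_contra hdet
      apply hli
      exact Matrix.linearIndependent_rows_of_det_ne_zero hdet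
    rw [this]
    exact dvd_zero _

theorem abs_det_le {n : ℕ} (x : Fin n → Fin n → ℤ) (m B : Fin n → ℝ)
    (hle : ∀ i j, |(x i j : ℝ)| ≤ m i * B j) :
    |((Matrix.det (Matrix.of x) : ℤ) : ℝ)| ≤ (n.factorial : ℝ) * ((∏ i, m i) * ∏ j, B j) := by
  classical
  rw [Matrix.det_apply']
  push_cast
  calc |∑ σ : Equiv.Perm (Fin n), ((Equiv.Perm.sign σ : ℤ) : ℝ) * ∏ i, (x (σ i) i : ℝ)|
      ≤ ∑ σ : Equiv.Perm (Fin n), |((Equiv.Perm.sign σ : ℤ) : ℝ) * ∏ i, (x (σ i) i : ℝ)| :=
        Finset.abs_sum_le_sum_abs _ _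
    _ ≤ ∑ σ : Equiv.Perm (Fin n), ((∏ i, m i) * ∏ j, B j) := by
        refine Finset.sum_le_sum fun σ _ => ?_
        rw [abs_mul]
        have h1 : |((Equiv.Perm.sign σ : ℤ) : ℝ)| = 1 := by
          rcases Int.units_eq_one_or (Equiv.Perm.sign σ) with h | h <;> simp [h]
        rw [h1, one_mul, Finset.abs_prod]
        calc ∏ i, |(x (σ i) i : ℝ)| ≤ ∏ i, (m (σ i) * B i) :=
              Finset.prod_le_prod (fun i _ => abs_nonneg _) fun i _ => hle _ _
          _ = (∏ i, m i) * ∏ j, B j := by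
              rw [Finset.prod_mul_distrib, Equiv.prod_comp σ m]
    _ = (n.factorial : ℝ) * ((∏ i, m i) * ∏ j, B j) := by
        rw [Finset.sum_const, Finset.card_univ, Fintype.card_perm, Fintype.card_fin, nsmul_eq_mul]

theorem det_ne_zero_of_linearIndependent {n : ℕ} {x : Fin n → Fin n → ℤ}
    (h : LinearIndependent ℚ (fun i => qv (x i))) : Matrix.det (Matrix.of x) ≠ 0 := by
  classical
  intro h0
  have h1 : Matrix.det (Matrix.of fun i => qv (x i)) = 0 := by
    have : (Matrix.of fun i => qv (x i)) = (Int.castRingHom ℚ).mapMatrix (Matrix.of x) := by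
      ext i j; simp [qv]
    rw [this, ← RingHom.map_det, h0, map_zero]
  have h2 : IsUnit (Matrix.of fun i => qv (x i)) := by
    rw [← Matrix.linearIndependent_rows_iff_isUnit]
    exact h
  rw [Matrix.isUnit_iff_isUnit_det, h1] at h2
  exact not_isUnit_zero h2

/-- lower bound in Minkowski's second theorem -/
theorem index_le_of_linearIndependent {n : ℕ} (Λ : AddSubgroup (Fin n → ℤ))
    (x : Fin n → Fin n → ℤ) (hx : ∀ i, x i ∈ Λ)
    (hli : LinearIndependent ℚ (fun i => qv (x i))) (m B : Fin n → ℝ)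
    (hle : ∀ i j, |(x i j : ℝ)| ≤ m i * B j) :
    (Λ.index : ℝ) ≤ (n.factorial : ℝ) * ((∏ i, m i) * ∏ j, B j) := by
  refine le_trans ?_ (abs_det_le x m B hle)
  have h1 := index_dvd_det Λ x hx
  have h2 := Int.le_of_dvd (abs_pos.2 (det_ne_zero_of_linearIndependent hli)) ((dvd_abs _ _).2 h1)
  exact_mod_cast h2

end lower

section upper

/-- Pigeonhole: a box without nonzero points of `Λ` has volume at most the index. -/
theorem prod_le_index {n : ℕ} (Λ : AddSubgroup (Fin n → ℤ)) (hΛ : Λ.index ≠ 0) (b : Fin n → ℝ)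
    (hb : ∀ j, 0 < b j) (h : ∀ y ∈ Λ, (∀ j, |(y j : ℝ)| < b j) → y = 0) :
    ∏ j, b j ≤ Λ.index := by
  classical
  set P : Finset (Fin n → ℤ) := Fintype.piFinset fun j => Finset.Ico 0 ⌈b j⌉ with hP
  have hcard : (P.card : ℝ) = ∏ j, (⌈b j⌉ : ℝ) := by
    rw [hP, Fintype.card_piFinset]
    push_cast
    refine Finset.prod_congr rfl fun j _ => ?_
    rw [Int.card_Ico, sub_zero]
    have : (0 : ℤ) ≤ ⌈b j⌉ := (Int.ceil_pos.2 (hb j)).le
    have h2 : ((⌈b j⌉.toNat : ℤ) : ℝ) = (⌈b j⌉ : ℝ) := by rw [Int.toNat_of_nonneg this]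
    exact_mod_cast h2
  by_contra hcon
  push Not at hcon
  have hlt : Λ.index < P.card := by
    have h1 : (Λ.index : ℝ) < (P.card : ℝ) := by
      rw [hcard]
      refine hcon.trans_le ?_
      exact Finset.prod_le_prod (fun j _ => (hb j).le) fun j _ => Int.le_ceil _
    exact_mod_cast h1
  have : Finite ((Fin n → ℤ) ⧸ Λ) := Nat.finite_of_card_ne_zero hΛ
  have := Fintype.ofFinite ((Fin n → ℤ) ⧸ Λ)
  have hlt2 : (Finset.univ : Finset ((Fin n → ℤ) ⧸ Λ)).card < P.card := by
    rw [Finset.card_univ, ← Nat.card_eq_fintype_card]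
    exact hlt
  obtain ⟨u, hu, w, hw, huw, heq⟩ := Finset.exists_ne_map_eq_of_card_lt_of_maps_to hlt2
    (f := fun y => (QuotientAddGroup.mk y : (Fin n → ℤ) ⧸ Λ)) (fun y _ => mem_univ _)
  have hmem : -u + w ∈ Λ := QuotientAddGroup.eq.1 heq
  rw [hP, Fintype.mem_piFinset] at hu hw
  have h0 := h _ hmem fun j => by
    have h1 := Finset.mem_Ico.1 (hu j)
    have h2 := Finset.mem_Ico.1 (hw j)
    have h3 : |(-u + w) j| ≤ ⌈b j⌉ - 1 := by
      rw [Pi.add_apply, Pi.neg_apply, abs_le]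
      constructor <;> omega
    have h4 : ((⌈b j⌉ : ℤ) : ℝ) < b j + 1 := Int.ceil_lt_add_one _
    have h5 : |(((-u + w) j : ℤ) : ℝ)| ≤ (⌈b j⌉ : ℝ) - 1 := by exact_mod_cast h3
    linarith
  apply huw
  have : w = u := by
    rw [neg_add_eq_zero] at h0
    exact h0.symm
  exact this.symm

/-- the normalised real vector -/
noncomputable def nv {n : ℕ} (B : Fin n → ℝ) (y : Fin n → ℤ) : Fin n → ℝ := fun j => (y j : ℝ) / B j

/-- map of `ℚ`-vectors to normalised real vectors -/
noncomputable def nvq {n : ℕ} (B : Fin n → ℝ) : (Fin n → ℚ) →ₗ[ℚ] (Fin n → ℝ) where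
  toFun y := fun j => (y j : ℝ) / B j
  map_add' y z := by funext j; simp [add_div]
  map_smul' c y := by
    funext j
    simp only [Pi.smul_apply, smul_eq_mul, Rat.cast_mul, RingHom.id_apply]
    rw [Rat.smul_def, mul_div_assoc]

theorem nvq_qv {n : ℕ} (B : Fin n → ℝ) (y : Fin n → ℤ) : nvq B (qv y) = nv B y := by
  funext j; simp [nvq, nv, qv]

theorem nv_mem_of_mem_flag {n : ℕ} (B : Fin n → ℝ) (x : Fin n → Fin n → ℤ) (i : ℕ)
    (y : Fin n → ℤ) (hy : qv y ∈ flag x i) :
    nv B y ∈ Submodule.span ℝ ((fun t => nv B (x t)) '' {t | (t : ℕ) < i}) := by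
  have h1 : nvq B (qv y) ∈ (flag x i).map (nvq B) := ⟨_, hy, rfl⟩
  rw [flag, Submodule.map_span, nvq_qv] at h1
  have h2 : (nvq B : (Fin n → ℚ) → Fin n → ℝ) '' ((fun t => qv (x t)) '' {t | (t : ℕ) < i}) =
      (fun t => nv B (x t)) '' {t | (t : ℕ) < i} := by
    rw [Set.image_image]
    exact Set.image_congr fun t _ => nvq_qv B (x t)
  rw [h2] at h1
  have h3 : Submodule.span ℚ ((fun t => nv B (x t)) '' {t | (t : ℕ) < i}) ≤
      (Submodule.span ℝ ((fun t => nv B (x t)) '' {t | (t : ℕ) < i})).restrictScalars ℚ :=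
    Submodule.span_le.2 Submodule.subset_span
  exact h3 h1

/-- the first index at which a nonzero vector enters the flag -/
theorem exists_flag_index {n : ℕ} {x : Fin n → Fin n → ℤ}
    (hli : LinearIndependent ℚ (fun i => qv (x i))) (y : Fin n → ℤ) (i0 : ℕ)
    (hy : qv y ∉ flag x i0) :
    ∃ k : Fin n, i0 ≤ k ∧ qv y ∉ flag x k ∧ qv y ∈ flag x (k + 1) := by
  classical
  have htop : flag x n = ⊤ := by
    have h1 : flag x n = Submodule.span ℚ (Set.range fun i => qv (x i)) := by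
      unfold flag
      congr 1
      rw [← Set.image_univ]
      congr 1
      ext t
      simp
    rw [h1]
    exact hli.span_eq_top_of_card_eq_finrank' (by simp)
  have hex : ∃ k, qv y ∈ flag x k := ⟨n, by rw [htop]; trivial⟩
  set k1 := Nat.find hex with hk1
  have hk1spec := Nat.find_spec hex
  have hk1le : k1 ≤ n := Nat.find_min' hex (by rw [htop]; trivial)
  have hi : i0 < k1 := by
    by_contra hcon
    push Not at hcon
    exact hy (flag_mono x hcon hk1spec)
  refine ⟨⟨k1 - 1, by omega⟩, by simp only; omega, ?_, ?_⟩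
  · exact Nat.find_min hex (by simp only; omega)
  · simp only
    rw [Nat.sub_add_cancel (by omega)]
    exact hk1spec

/-- Davenport's ordering for successive minima: a point outside `flag x i` has, for some
`k ≥ i` and some `t ≤ k`, its coordinate `π t` at least `n ^ (-n) * l k * B (π t)`. -/
theorem IsMinima.exists_perm {n : ℕ} {Λ : AddSubgroup (Fin n → ℤ)} {B : Fin n → ℝ}
    (hB : ∀ j, 0 < B j) {x : Fin n → Fin n → ℤ} {l : Fin n → ℝ} (H : IsMinima Λ B x l) :
    ∃ π : Equiv.Perm (Fin n), ∀ i : ℕ, ∀ y ∈ Λ, qv y ∉ flag x i →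
      ∃ k t : Fin n, i ≤ k ∧ t ≤ k ∧ l k * B (π t) ≤ (n : ℝ) ^ n * |(y (π t) : ℝ)| := by
  obtain ⟨π, hπ⟩ := exists_perm_flag n (fun t => nv B (x t))
  refine ⟨π, fun i y hy hyi => ?_⟩
  obtain ⟨k, hik, hk1, hk2⟩ := exists_flag_index H.indep y i hyi
  refine ⟨k, ?_⟩
  by_contra hcon
  push Not at hcon
  apply hk1
  apply H.greedy k y hy
  have hn : (0 : ℝ) < (n : ℝ) ^ n := by
    have : 0 < n := by have := k.isLt; omega
    positivity
  -- all the first `k + 1` coordinates are small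
  have hsmall : ∀ t : Fin n, (t : ℕ) < k + 1 → |nv B y (π t)| < l k / (n : ℝ) ^ n := by
    intro t ht
    have h1 := hcon t hik (Nat.lt_succ_iff.1 ht)
    rw [nv, abs_div, abs_of_pos (hB _), div_lt_div_iff₀ (hB _) hn]
    linarith
  -- maximum
  obtain ⟨t0, ht0, hmax⟩ := Finset.exists_max_image (univ.filter fun t : Fin n => (t : ℕ) < k + 1)
    (fun t => |nv B y (π t)|) ⟨k, Finset.mem_filter.2 ⟨mem_univ _, Nat.lt_succ_self _⟩⟩
  have hb := hsmall t0 (Finset.mem_filter.1 ht0).2
  intro j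
  have h2 := hπ (k + 1) (by have := k.isLt; omega) _ (nv_mem_of_mem_flag B x _ y hk2)
    |nv B y (π t0)| (abs_nonneg _)
    (fun t ht => hmax t (Finset.mem_filter.2 ⟨mem_univ _, ht⟩)) j
  have h3 : |nv B y j| < l k := by
    refine h2.trans_lt ?_
    rw [lt_div_iff₀ hn] at hb
    linarith
  rw [nv, abs_div, abs_of_pos (hB _), div_lt_iff₀ (hB _)] at h3
  exact h3

/-- Minkowski's second theorem, upper bound -/
theorem IsMinima.upper {n : ℕ} {Λ : AddSubgroup (Fin n → ℤ)} (hΛ : Λ.index ≠ 0) {B : Fin n → ℝ}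
    (hB : ∀ j, 0 < B j) {x : Fin n → Fin n → ℤ} {l : Fin n → ℝ} (H : IsMinima Λ B x l) :
    (∏ i, l i) * ∏ j, B j ≤ ((n : ℝ) ^ n) ^ n * Λ.index := by
  rcases Nat.eq_zero_or_pos n with hn0 | hn0
  · subst hn0
    simp only [univ_eq_empty, prod_empty, mul_one, CharP.cast_eq_zero, pow_zero, one_mul]
    exact_mod_cast Nat.one_le_iff_ne_zero.2 hΛ
  obtain ⟨π, hπ⟩ := H.exists_perm hB
  have hn : (0 : ℝ) < (n : ℝ) ^ n := by positivity
  have key := prod_le_index Λ hΛ (fun j => l (π.symm j) * B j / (n : ℝ) ^ n)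
    (fun j => div_pos (mul_pos (H.pos _) (hB _)) hn) ?_
  · rw [Finset.prod_div_distrib, Finset.prod_const, Finset.card_univ, Fintype.card_fin,
      Finset.prod_mul_distrib, Equiv.prod_comp π.symm l, div_le_iff₀ (by positivity)] at key
    linarith
  · intro y hy hlt
    by_contra hne
    obtain ⟨k, t, -, htk, hbig⟩ := hπ 0 y hy (by
      have : flag x 0 = ⊥ := by simp [flag]
      rw [this, Submodule.mem_bot]
      intro h
      apply hne
      apply qv_injective
      rw [h, qv_zero])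
    have h1 := hlt (π t)
    simp only [Equiv.symm_apply_apply] at h1
    rw [lt_div_iff₀ hn] at h1
    have h2 : l t * B (π t) ≤ l k * B (π t) := mul_le_mul_of_nonneg_right (H.mono htk) (hB _).le
    linarith

end upper

end Pool.Agent.Lib.SubspaceH13
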