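import Mathlib

/-!
# Davenport's ordering of the coordinates along a flag

Given vectors `v 0, ..., v (n-1)` of `ℝ ^ n` there is a permutation `π` of the coordinates such
that on the span of the first `i` of them all coordinates are controlled by the coordinates
`π 0, ..., π (i-1)`.
-/

namespace Pool.Agent.Lib.SubspaceH13

open Finset

theorem exists_perm_flag_aux (n : ℕ) (v : Fin n → Fin n → ℝ) (d : ℕ) (hd : d ≤ n) :
    ∃ π : Equiv.Perm (Fin n), ∀ i, n - d ≤ i → i ≤ n →
      ∀ y ∈ Submodule.span ℝ (v '' {k | (k : ℕ) < i}), ∀ b : ℝ, 0 ≤ b →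
      (∀ k : Fin n, (k : ℕ) < i → |y (π k)| ≤ b) → ∀ j, |y j| ≤ (n : ℝ) ^ (n - i) * b := by
  induction d with
  | zero =>
    refine ⟨1, fun i hi hin y _ b hb h j => ?_⟩
    have : i = n := by omega
    subst this
    simpa using h j j.isLt
  | succ d ih =>
    obtain ⟨π, hπ⟩ := ih (by omega)
    -- the new index
    set i := n - (d + 1) with hi
    have hin : i < n := by omega
    -- a relation
    have hrel : ∃ a : Fin (i + 1) → ℝ, (∀ t : Fin i, ∑ k : Fin (i + 1),
        a k * v ⟨t, by omega⟩ (π ⟨k, by omega⟩) = 0) ∧ ∃ k, a k ≠ 0 := by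
      have hnot : ¬ LinearIndependent ℝ (fun k : Fin (i + 1) =>
          (fun t : Fin i => v ⟨t, by omega⟩ (π ⟨k, by omega⟩))) := by
        intro h
        have := h.fintype_card_le_finrank
        simp at this
      obtain ⟨a, ha, hne⟩ := Fintype.not_linearIndependent_iff.1 hnot
      refine ⟨a, fun t => ?_, hne⟩
      have := congrFun ha t
      simpa [Finset.sum_apply] using this
    obtain ⟨a, ha, k1, hk1⟩ := hrel
    obtain ⟨k0, -, hk0⟩ := Finset.exists_max_image Finset.univ (fun k => |a k|) ⟨k1, mem_univ _⟩
    have hk0ne : 0 < |a k0| := lt_of_lt_of_le (abs_pos.2 hk1) (hk0 k1 (mem_univ _))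
    -- relation on the span
    have hspan : ∀ y ∈ Submodule.span ℝ (v '' {k | (k : ℕ) < i}),
        ∑ k : Fin (i + 1), a k * y (π ⟨k, by omega⟩) = 0 := by
      intro y hy
      induction hy using Submodule.span_induction with
      | mem x hx =>
        obtain ⟨t, ht, rfl⟩ := hx
        exact ha ⟨t, ht⟩
      | zero => simp
      | add x y _ _ hx hy =>
        simp only [Pi.add_apply, mul_add, Finset.sum_add_distrib, hx, hy, add_zero]
      | smul c x _ hx =>
        simp only [Pi.smul_apply, smul_eq_mul]
        rw [← mul_zero c, ← hx, Finset.mul_sum]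
        exact Finset.sum_congr rfl fun k _ => by ring
    set K0 : Fin n := ⟨k0, by omega⟩ with hK0
    set I0 : Fin n := ⟨i, hin⟩ with hI0
    refine ⟨(Equiv.swap K0 I0).trans π, ?_⟩
    intro i' hi' hin' y hy b hb h j
    rcases Nat.lt_or_ge i i' with hlt | hge
    · -- larger index: the set of coordinates is unchanged
      apply hπ i' (by omega) hin' y hy b hb _ j
      intro k hk
      have hsw : ((Equiv.swap K0 I0 k : Fin n) : ℕ) < i' := by
        rw [Equiv.swap_apply_def]
        split_ifs
        · simp only [hI0]; omega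
        · simp only [hK0]; omega
        · exact hk
      have := h (Equiv.swap K0 I0 k) hsw
      simpa using this
    · have hii : i' = i := by omega
      subst hii
      -- all coordinates `π k`, `k ≤ i`, are at most `n * b`
      have hn1 : (1 : ℝ) ≤ n := by exact_mod_cast (by omega : 1 ≤ n)
      have hother : ∀ k : Fin (i + 1), k ≠ k0 → |y (π ⟨k, by omega⟩)| ≤ b := by
        intro k hk
        by_cases hki : (k : ℕ) = i
        · -- k = i, then k0 < i
          have hk0i : (k0 : ℕ) < i := by
            have : (k0 : ℕ) ≠ i := fun h' => hk (Fin.ext (by omega))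
            omega
          have := h K0 hk0i
          simp only [Equiv.trans_apply, Equiv.swap_apply_left] at this
          have h2 : (⟨k, by omega⟩ : Fin n) = I0 := Fin.ext hki
          rw [h2]
          exact this
        · have hk2 : (k : ℕ) < i := by omega
          have := h ⟨k, by omega⟩ hk2
          simp only [Equiv.trans_apply] at this
          rw [Equiv.swap_apply_of_ne_of_ne] at this
          · exact this
          · intro h'
            apply hk
            exact Fin.ext (by simpa [hK0] using congrArg Fin.val h')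
          · intro h'
            apply hki
            simpa [hI0] using congrArg Fin.val h'
      have hk0b : |y (π K0)| ≤ n * b := by
        have h1 := hspan y hy
        rw [← Finset.add_sum_erase _ _ (mem_univ k0)] at h1
        have h2 : |a k0| * |y (π K0)| ≤ ∑ k ∈ univ.erase k0, |a k0| * b := by
          rw [← abs_mul, eq_neg_of_add_eq_zero_left h1, abs_neg]
          refine (Finset.abs_sum_le_sum_abs _ _).trans (Finset.sum_le_sum fun k hk => ?_)
          rw [abs_mul]
          exact mul_le_mul (hk0 k (mem_univ _)) (hother k (Finset.ne_of_mem_erase hk))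
            (abs_nonneg _) (abs_nonneg _)
        rw [Finset.sum_const, Finset.card_erase_of_mem (mem_univ _), Finset.card_univ,
          Fintype.card_fin, nsmul_eq_mul] at h2
        have h3 : ((i + 1 - 1 : ℕ) : ℝ) ≤ n := by exact_mod_cast (by omega : i + 1 - 1 ≤ n)
        have h4 : |a k0| * |y (π K0)| ≤ |a k0| * (n * b) := by
          refine h2.trans ?_
          calc ((i + 1 - 1 : ℕ) : ℝ) * (|a k0| * b) ≤ n * (|a k0| * b) :=
                mul_le_mul_of_nonneg_right h3 (by positivity)
            _ = |a k0| * (n * b) := by ring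
        exact le_of_mul_le_mul_left h4 hk0ne
      have hall : ∀ k : Fin n, (k : ℕ) < i + 1 → |y (π k)| ≤ n * b := by
        intro k hk
        by_cases hkk : k = K0
        · rw [hkk]; exact hk0b
        · have := hother ⟨k, hk⟩ (fun h' => hkk (Fin.ext (by simp [hK0, ← h'])))
          refine this.trans ?_
          nlinarith
      have hmono : Submodule.span ℝ (v '' {k | (k : ℕ) < i}) ≤
          Submodule.span ℝ (v '' {k | (k : ℕ) < i + 1}) :=
        Submodule.span_mono (Set.image_mono fun k (hk : (k : ℕ) < i) => by
          show (k : ℕ) < i + 1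
          omega)
      have := hπ (i + 1) (by omega) (by omega) y (hmono hy) (n * b) (by positivity) hall j
      refine this.trans (le_of_eq ?_)
      rw [show n - i = (n - (i + 1)) + 1 by omega, pow_succ]
      ring

/-- Davenport's ordering of the coordinates along a flag. -/
theorem exists_perm_flag (n : ℕ) (v : Fin n → Fin n → ℝ) :
    ∃ π : Equiv.Perm (Fin n), ∀ i ≤ n,
      ∀ y ∈ Submodule.span ℝ (v '' {k | (k : ℕ) < i}), ∀ b : ℝ, 0 ≤ b →
      (∀ k : Fin n, (k : ℕ) < i → |y (π k)| ≤ b) → ∀ j, |y j| ≤ (n : ℝ) ^ n * b := by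
  obtain ⟨π, hπ⟩ := exists_perm_flag_aux n v n le_rfl
  refine ⟨π, fun i hi y hy b hb h j => (hπ i (by omega) hi y hy b hb h j).trans ?_⟩
  apply mul_le_mul_of_nonneg_right _ hb
  have hn : 1 ≤ n := by have := j.isLt; omega
  exact pow_le_pow_right₀ (by exact_mod_cast hn) (Nat.sub_le _ _)

end Pool.Agent.Lib.SubspaceH13
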