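import Mathlib

/-!
# Statement of the Subspace theorem (rational forms, `S = {∞, 2, 3}`) and its form for vectors of
`S`-units
-/

namespace Pool.Agent.Lib.SubspaceH13

open Finset

/-- The Subspace theorem of Schmidt and Schlickewei for linear forms with integer coefficients and
the places `∞, 2, 3` of `ℚ`, in divisibility form. -/
def SubspaceStmt : Prop :=
  ∀ (N : ℕ), 2 ≤ N → ∀ (LR L2 L3 : Matrix (Fin N) (Fin N) ℤ),
    LR.det ≠ 0 → L2.det ≠ 0 → L3.det ≠ 0 → ∀ ε : ℝ, 0 < ε → ∃ F : Finset (Fin N → ℤ), (∀ h ∈ F, h ≠ 0) ∧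
      ∀ (X : Fin N → ℤ) (e f : Fin N → ℕ), X ≠ 0 →
        (∀ k, (2 : ℤ) ^ e k ∣ (L2.mulVec X) k) → (∀ k, (3 : ℤ) ^ f k ∣ (L3.mulVec X) k) →
        ∀ Q : ℝ, (∀ k, |(X k : ℝ)| ≤ Q) →
        (∏ k, |((LR.mulVec X) k : ℝ)|) * Q ^ ε ≤ 2 ^ (∑ k, e k) * 3 ^ (∑ k, f k) →
        ∃ h ∈ F, ∑ k, h k * X k = 0

variable {ι : Type*} [Fintype ι] [DecidableEq ι]

/-- the Subspace theorem for arbitrary finite index types -/
theorem SubspaceStmt.fintype (H : SubspaceStmt) (hι : 2 ≤ Fintype.card ι) (LR L2 L3 : Matrix ι ι ℤ) (hR : LR.det ≠ 0)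
    (h2 : L2.det ≠ 0) (h3 : L3.det ≠ 0) (ε : ℝ) (hε : 0 < ε) :
    ∃ F : Finset (ι → ℤ), (∀ h ∈ F, h ≠ 0) ∧
      ∀ (X : ι → ℤ) (e f : ι → ℕ), X ≠ 0 →
        (∀ k, (2 : ℤ) ^ e k ∣ (L2.mulVec X) k) → (∀ k, (3 : ℤ) ^ f k ∣ (L3.mulVec X) k) →
        ∀ Q : ℝ, (∀ k, |(X k : ℝ)| ≤ Q) →
        (∏ k, |((LR.mulVec X) k : ℝ)|) * Q ^ ε ≤ 2 ^ (∑ k, e k) * 3 ^ (∑ k, f k) →
        ∃ h ∈ F, ∑ k, h k * X k = 0 := by
  classical
  set φ := Fintype.equivFin ι with hφ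
  obtain ⟨F, hF, hmain⟩ := H (Fintype.card ι) hι (LR.reindex φ φ) (L2.reindex φ φ) (L3.reindex φ φ)
    (by rwa [Matrix.det_reindex_self]) (by rwa [Matrix.det_reindex_self])
    (by rwa [Matrix.det_reindex_self]) ε hε
  have hmv : ∀ (L : Matrix ι ι ℤ) (X : ι → ℤ) (k : Fin (Fintype.card ι)),
      ((L.reindex φ φ).mulVec (X ∘ φ.symm)) k = (L.mulVec X) (φ.symm k) := by
    intro L X k
    simp only [Matrix.mulVec, dotProduct, Matrix.reindex_apply, Matrix.submatrix_apply,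
      Function.comp]
    exact Equiv.sum_comp φ.symm (fun j => L (φ.symm k) j * X j)
  refine ⟨F.image (fun h => h ∘ φ), ?_, ?_⟩
  · intro h hh
    obtain ⟨g, hg, rfl⟩ := Finset.mem_image.1 hh
    intro h0
    apply hF g hg
    funext k
    have := congrFun h0 (φ.symm k)
    simpa using this
  · intro X e f hX he hf Q hQ hprod
    obtain ⟨h, hh, hsum⟩ := hmain (X ∘ φ.symm) (e ∘ φ.symm) (f ∘ φ.symm)
      (fun h0 => hX (by
        funext k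
        have := congrFun h0 (φ k)
        simpa using this))
      (fun k => by rw [hmv]; exact he _) (fun k => by rw [hmv]; exact hf _) Q
      (fun k => hQ _) (by
        have e1 : ∏ k, |(((LR.reindex φ φ).mulVec (X ∘ φ.symm)) k : ℝ)| =
            ∏ k, |((LR.mulVec X) k : ℝ)| := by
          rw [← Equiv.prod_comp φ.symm (fun k => |((LR.mulVec X) k : ℝ)|)]
          exact Finset.prod_congr rfl fun k _ => by rw [hmv]
        have e2 : ∑ k, (e ∘ φ.symm) k = ∑ k, e k := Equiv.sum_comp φ.symm e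
        have e3 : ∑ k, (f ∘ φ.symm) k = ∑ k, f k := Equiv.sum_comp φ.symm f
        rw [e1, e2, e3]
        exact hprod)
    refine ⟨h ∘ φ, Finset.mem_image_of_mem _ hh, ?_⟩
    rw [← hsum, ← Equiv.sum_comp φ (fun k => h k * (X ∘ φ.symm) k)]
    exact Finset.sum_congr rfl fun k _ => by simp

/-- identity matrix with the row `k0` replaced by `δ` -/
def rowMat (k0 : ι) (δ : ι → ℤ) : Matrix ι ι ℤ := Matrix.updateRow 1 k0 δ

theorem rowMat_det (k0 : ι) (δ : ι → ℤ) : (rowMat k0 δ).det = δ k0 := by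
  unfold rowMat
  have h : δ = ∑ j, δ j • (fun i => (1 : Matrix ι ι ℤ) j i) := by
    funext i
    simp [Finset.sum_apply, Matrix.one_apply]
  conv_lhs => rw [h]
  rw [Matrix.det_updateRow_sum]
  simp

theorem rowMat_mulVec_self (k0 : ι) (δ X : ι → ℤ) :
    (rowMat k0 δ).mulVec X k0 = ∑ k, δ k * X k := by
  simp [rowMat, Matrix.mulVec, dotProduct]

theorem rowMat_mulVec_ne {k0 k : ι} (h : k ≠ k0) (δ X : ι → ℤ) :
    (rowMat k0 δ).mulVec X k = X k := by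
  simp only [rowMat, Matrix.mulVec, dotProduct]
  rw [Matrix.updateRow_ne h]
  simp [Matrix.one_apply]

/-- the form at the place `2` -/
theorem SubspaceStmt.two (H : SubspaceStmt) (hι : 2 ≤ Fintype.card ι) (δ : ι → ℤ) (k0 : ι) (hδ : δ k0 ≠ 0) (ε : ℝ)
    (hε : 0 < ε) :
    ∃ F : Finset (ι → ℤ), (∀ h ∈ F, h ≠ 0) ∧
      ∀ (X : ι → ℤ) (e f : ι → ℕ), X ≠ 0 → (∀ k, k ≠ k0 → (2 : ℤ) ^ e k ∣ X k) →
        (2 : ℤ) ^ e k0 ∣ ∑ k, δ k * X k → (∀ k, (3 : ℤ) ^ f k ∣ X k) →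
        ∀ Q : ℝ, (∀ k, |(X k : ℝ)| ≤ Q) →
        (∏ k, |(X k : ℝ)|) * Q ^ ε ≤ 2 ^ (∑ k, e k) * 3 ^ (∑ k, f k) →
        ∃ h ∈ F, ∑ k, h k * X k = 0 := by
  obtain ⟨F, hF, hmain⟩ := H.fintype hι (1 : Matrix ι ι ℤ) (rowMat k0 δ) 1 (by simp)
    (by rwa [rowMat_det]) (by simp) ε hε
  refine ⟨F, hF, fun X e f hX he he0 hf Q hQ hprod => hmain X e f hX ?_ ?_ Q hQ ?_⟩
  · intro k
    by_cases hk : k = k0
    · subst hk; rw [rowMat_mulVec_self]; exact he0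
    · rw [rowMat_mulVec_ne hk]; exact he k hk
  · intro k; rw [Matrix.one_mulVec]; exact hf k
  · simpa using hprod

/-- the form at the place `3` -/
theorem SubspaceStmt.three (H : SubspaceStmt) (hι : 2 ≤ Fintype.card ι) (δ : ι → ℤ) (k0 : ι) (hδ : δ k0 ≠ 0) (ε : ℝ)
    (hε : 0 < ε) :
    ∃ F : Finset (ι → ℤ), (∀ h ∈ F, h ≠ 0) ∧
      ∀ (X : ι → ℤ) (e f : ι → ℕ), X ≠ 0 → (∀ k, (2 : ℤ) ^ e k ∣ X k) →
        (∀ k, k ≠ k0 → (3 : ℤ) ^ f k ∣ X k) → (3 : ℤ) ^ f k0 ∣ ∑ k, δ k * X k →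
        ∀ Q : ℝ, (∀ k, |(X k : ℝ)| ≤ Q) →
        (∏ k, |(X k : ℝ)|) * Q ^ ε ≤ 2 ^ (∑ k, e k) * 3 ^ (∑ k, f k) →
        ∃ h ∈ F, ∑ k, h k * X k = 0 := by
  obtain ⟨F, hF, hmain⟩ := H.fintype hι (1 : Matrix ι ι ℤ) 1 (rowMat k0 δ) (by simp)
    (by simp) (by rwa [rowMat_det]) ε hε
  refine ⟨F, hF, fun X e f hX he hf hf0 Q hQ hprod => hmain X e f hX ?_ ?_ Q hQ ?_⟩
  · intro k; rw [Matrix.one_mulVec]; exact he k
  · intro k
    by_cases hk : k = k0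
    · subst hk; rw [rowMat_mulVec_self]; exact hf0
    · rw [rowMat_mulVec_ne hk]; exact hf k hk
  · simpa using hprod

/-- the form at the infinite place -/
theorem SubspaceStmt.real (H : SubspaceStmt) (hι : 2 ≤ Fintype.card ι) (δ : ι → ℤ) (k0 : ι) (hδ : δ k0 ≠ 0) (ε : ℝ)
    (hε : 0 < ε) :
    ∃ F : Finset (ι → ℤ), (∀ h ∈ F, h ≠ 0) ∧
      ∀ (X : ι → ℤ) (e f : ι → ℕ), X ≠ 0 → (∀ k, (2 : ℤ) ^ e k ∣ X k) →
        (∀ k, (3 : ℤ) ^ f k ∣ X k) →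
        ∀ Q : ℝ, (∀ k, |(X k : ℝ)| ≤ Q) →
        ((∏ k ∈ univ.erase k0, |(X k : ℝ)|) * |((∑ k, δ k * X k : ℤ) : ℝ)|) * Q ^ ε ≤
          2 ^ (∑ k, e k) * 3 ^ (∑ k, f k) →
        ∃ h ∈ F, ∑ k, h k * X k = 0 := by
  obtain ⟨F, hF, hmain⟩ := H.fintype hι (rowMat k0 δ) (1 : Matrix ι ι ℤ) 1
    (by rwa [rowMat_det]) (by simp) (by simp) ε hε
  refine ⟨F, hF, fun X e f hX he hf Q hQ hprod => hmain X e f hX ?_ ?_ Q hQ ?_⟩
  · intro k; rw [Matrix.one_mulVec]; exact he k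
  · intro k; rw [Matrix.one_mulVec]; exact hf k
  · have h1 : ∏ k, |(((rowMat k0 δ).mulVec X) k : ℝ)| =
        (∏ k ∈ univ.erase k0, |(X k : ℝ)|) * |((∑ k, δ k * X k : ℤ) : ℝ)| := by
      rw [← Finset.mul_prod_erase _ _ (mem_univ k0), mul_comm, rowMat_mulVec_self]
      congr 1
      exact Finset.prod_congr rfl fun k hk => by rw [rowMat_mulVec_ne (Finset.ne_of_mem_erase hk)]
    rw [h1]
    exact hprod

/-- the `S`-unit `2 ^ a * 3 ^ b` -/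
def su (a b : ℕ) : ℤ := 2 ^ a * 3 ^ b

theorem su_pos (a b : ℕ) : 0 < su a b := by unfold su; positivity

theorem one_le_su (a b : ℕ) : 1 ≤ su a b := su_pos a b

theorem su_cast (a b : ℕ) : ((su a b : ℤ) : ℝ) = 2 ^ a * 3 ^ b := by simp [su]

theorem su_cast_pos (a b : ℕ) : (0 : ℝ) < ((su a b : ℤ) : ℝ) := by exact_mod_cast su_pos a b

theorem su_add (a b c d : ℕ) : su (a + c) (b + d) = su a b * su c d := by
  unfold su; rw [pow_add, pow_add]; ring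

omit [Fintype ι] [DecidableEq ι] in
theorem prod_su (u w : ι → ℕ) (s : Finset ι) :
    ∏ k ∈ s, |((su (u k) (w k) : ℤ) : ℝ)| = 2 ^ (∑ k ∈ s, u k) * 3 ^ (∑ k ∈ s, w k) := by
  rw [← Finset.prod_pow_eq_pow_sum, ← Finset.prod_pow_eq_pow_sum, ← Finset.prod_mul_distrib]
  refine Finset.prod_congr rfl fun k _ => ?_
  rw [abs_of_pos (su_cast_pos _ _), su_cast]

theorem SubspaceStmt.su_two (H : SubspaceStmt) (hι : 2 ≤ Fintype.card ι) (δ : ι → ℤ) (k0 : ι) (hδ : δ k0 ≠ 0) (ε : ℝ)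
    (hε : 0 < ε) :
    ∃ F : Finset (ι → ℤ), (∀ h ∈ F, h ≠ 0) ∧ ∀ (u w : ι → ℕ) (B : ℕ),
        (2 : ℤ) ^ B ∣ ∑ k, δ k * su (u k) (w k) →
        ∀ Q : ℝ, (∀ k, ((su (u k) (w k) : ℤ) : ℝ) ≤ Q) →
        2 ^ (u k0) * Q ^ ε ≤ 2 ^ B →
        ∃ h ∈ F, ∑ k, h k * su (u k) (w k) = 0 := by
  obtain ⟨F, hF, hmain⟩ := H.two hι δ k0 hδ ε hε
  refine ⟨F, hF, fun u w B hB Q hQ hQB => ?_⟩
  refine hmain (fun k => su (u k) (w k)) (Function.update u k0 B) w ?_ ?_ ?_ ?_ Q ?_ ?_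
  · intro h0
    have := congrFun h0 k0
    simp only [Pi.zero_apply] at this
    exact absurd this (su_pos _ _).ne'
  · intro k hk
    rw [Function.update_of_ne hk]
    exact Dvd.intro _ rfl
  · rw [Function.update_self]; exact hB
  · intro k; exact Dvd.intro_left _ rfl
  · intro k; rw [abs_of_pos (su_cast_pos _ _)]; exact hQ k
  · rw [prod_su, ← Finset.add_sum_erase _ _ (mem_univ k0),
      ← Finset.add_sum_erase _ (Function.update u k0 B) (mem_univ k0), Function.update_self]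
    have h1 : ∑ k ∈ univ.erase k0, Function.update u k0 B k = ∑ k ∈ univ.erase k0, u k :=
      Finset.sum_congr rfl fun k hk => by rw [Function.update_of_ne (Finset.ne_of_mem_erase hk)]
    rw [h1, pow_add, pow_add]
    calc 2 ^ u k0 * 2 ^ (∑ k ∈ univ.erase k0, u k) * 3 ^ (∑ k, w k) * Q ^ ε
        = (2 ^ u k0 * Q ^ ε) * (2 ^ (∑ k ∈ univ.erase k0, u k) * 3 ^ (∑ k, w k)) := by ring
      _ ≤ 2 ^ B * (2 ^ (∑ k ∈ univ.erase k0, u k) * 3 ^ (∑ k, w k)) :=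
          mul_le_mul_of_nonneg_right hQB (by positivity)
      _ = _ := by ring

theorem SubspaceStmt.su_three (H : SubspaceStmt) (hι : 2 ≤ Fintype.card ι) (δ : ι → ℤ) (k0 : ι) (hδ : δ k0 ≠ 0) (ε : ℝ)
    (hε : 0 < ε) :
    ∃ F : Finset (ι → ℤ), (∀ h ∈ F, h ≠ 0) ∧ ∀ (u w : ι → ℕ) (B : ℕ),
        (3 : ℤ) ^ B ∣ ∑ k, δ k * su (u k) (w k) →
        ∀ Q : ℝ, (∀ k, ((su (u k) (w k) : ℤ) : ℝ) ≤ Q) →
        3 ^ (w k0) * Q ^ ε ≤ 3 ^ B →
        ∃ h ∈ F, ∑ k, h k * su (u k) (w k) = 0 := by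
  obtain ⟨F, hF, hmain⟩ := H.three hι δ k0 hδ ε hε
  refine ⟨F, hF, fun u w B hB Q hQ hQB => ?_⟩
  refine hmain (fun k => su (u k) (w k)) u (Function.update w k0 B) ?_ ?_ ?_ ?_ Q ?_ ?_
  · intro h0
    have := congrFun h0 k0
    simp only [Pi.zero_apply] at this
    exact absurd this (su_pos _ _).ne'
  · intro k; exact Dvd.intro _ rfl
  · intro k hk
    rw [Function.update_of_ne hk]
    exact Dvd.intro_left _ rfl
  · rw [Function.update_self]; exact hB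
  · intro k; rw [abs_of_pos (su_cast_pos _ _)]; exact hQ k
  · rw [prod_su, ← Finset.add_sum_erase _ w (mem_univ k0),
      ← Finset.add_sum_erase _ (Function.update w k0 B) (mem_univ k0), Function.update_self]
    have h1 : ∑ k ∈ univ.erase k0, Function.update w k0 B k = ∑ k ∈ univ.erase k0, w k :=
      Finset.sum_congr rfl fun k hk => by rw [Function.update_of_ne (Finset.ne_of_mem_erase hk)]
    rw [h1, pow_add, pow_add]
    calc 2 ^ (∑ k, u k) * (3 ^ w k0 * 3 ^ (∑ k ∈ univ.erase k0, w k)) * Q ^ ε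
        = (3 ^ w k0 * Q ^ ε) * (2 ^ (∑ k, u k) * 3 ^ (∑ k ∈ univ.erase k0, w k)) := by ring
      _ ≤ 3 ^ B * (2 ^ (∑ k, u k) * 3 ^ (∑ k ∈ univ.erase k0, w k)) :=
          mul_le_mul_of_nonneg_right hQB (by positivity)
      _ = _ := by ring

theorem SubspaceStmt.su_real (H : SubspaceStmt) (hι : 2 ≤ Fintype.card ι) (δ : ι → ℤ) (k0 : ι) (hδ : δ k0 ≠ 0) (ε : ℝ)
    (hε : 0 < ε) :
    ∃ F : Finset (ι → ℤ), (∀ h ∈ F, h ≠ 0) ∧ ∀ (u w : ι → ℕ),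
        ∀ Q : ℝ, (∀ k, ((su (u k) (w k) : ℤ) : ℝ) ≤ Q) →
        |((∑ k, δ k * su (u k) (w k) : ℤ) : ℝ)| * Q ^ ε ≤ (su (u k0) (w k0) : ℤ) →
        ∃ h ∈ F, ∑ k, h k * su (u k) (w k) = 0 := by
  obtain ⟨F, hF, hmain⟩ := H.real hι δ k0 hδ ε hε
  refine ⟨F, hF, fun u w Q hQ hQB => ?_⟩
  refine hmain (fun k => su (u k) (w k)) u w ?_ ?_ ?_ Q ?_ ?_
  · intro h0
    have := congrFun h0 k0
    simp only [Pi.zero_apply] at this
    exact absurd this (su_pos _ _).ne'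
  · intro k; exact Dvd.intro _ rfl
  · intro k; exact Dvd.intro_left _ rfl
  · intro k; rw [abs_of_pos (su_cast_pos _ _)]; exact hQ k
  · rw [← prod_su, ← Finset.mul_prod_erase _ _ (mem_univ k0)]
    rw [abs_of_pos (su_cast_pos (u k0) (w k0)), mul_assoc, mul_comm]
    exact mul_le_mul_of_nonneg_right hQB (Finset.prod_nonneg fun _ _ => abs_nonneg _)

end Pool.Agent.Lib.SubspaceH13
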